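import Pool.Agent.Helper40.AC.Stmts

/-!
helper97: packet P24 of project AC (MP_4c91e2_ag): two polynomials of the ideal with independent
normal gradients.
-/

set_option autoImplicit false

open scoped ContDiff Topology Matrix
open MvPolynomial

namespace Pool.Agent.Helper97.AC

open Pool.Agent.Helper40.AC

noncomputable section

/-! ### Derivatives of polynomial functions -/

/-- derivative of a polynomial function along a differentiable map -/
theorem hasF_evalC {σ : Type} [Fintype σ] [DecidableEq σ] {E : Type} [NormedAddCommGroup E]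
    [NormedSpace ℝ E] (F : MvPolynomial σ ℂ) (ψ : E → (σ → ℂ)) (D : E →L[ℝ] (σ → ℂ)) (z : E)
    (h : HasFDerivAt ψ D z) :
    ∃ L : E →L[ℝ] ℂ, HasFDerivAt (fun y => eval (ψ y) F) L z ∧
      ∀ v, L v = ∑ l, eval (ψ z) (pderiv l F) * D v l := by
  induction F using MvPolynomial.induction_on with
  | C a =>
    refine ⟨0, ?_, fun v => by simp⟩
    simp only [eval_C]
    exact hasFDerivAt_const a z
  | add p q hp hq =>
    obtain ⟨L1, h1, h1'⟩ := hp
    obtain ⟨L2, h2, h2'⟩ := hq
    refine ⟨L1 + L2, ?_, fun v => ?_⟩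
    · simp only [map_add]
      exact h1.add h2
    · simp only [ContinuousLinearMap.add_apply, h1', h2', map_add, add_mul,
        Finset.sum_add_distrib]
  | mul_X p n hp =>
    obtain ⟨L1, h1, h1'⟩ := hp
    have h2 : HasFDerivAt (fun y => ψ y n) ((ContinuousLinearMap.proj (R := ℝ) n).comp D) z :=
      (hasFDerivAt_pi'.1 h) n
    refine ⟨eval (ψ z) p • ((ContinuousLinearMap.proj (R := ℝ) n).comp D) + ψ z n • L1, ?_,
      fun v => ?_⟩
    · simp only [map_mul, eval_X]
      exact h1.mul h2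
    · have e : ∀ l, eval (ψ z) (pderiv l (p * X n)) * D v l =
          ψ z n * (eval (ψ z) (pderiv l p) * D v l) +
          (if l = n then eval (ψ z) p * D v n else 0) := by
        intro l
        rw [pderiv_mul, map_add, map_mul, map_mul, eval_X, pderiv_X]
        by_cases hl : l = n
        · subst hl
          rw [if_pos rfl, Pi.single_eq_same, map_one]
          ring
        · rw [if_neg hl, Pi.single_eq_of_ne (Ne.symm hl), map_zero]
          ring
      rw [Finset.sum_congr rfl (fun l _ => e l), Finset.sum_add_distrib, Finset.sum_ite_eq',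
        if_pos (Finset.mem_univ n), ← Finset.mul_sum, ← h1']
      simp only [ContinuousLinearMap.add_apply, ContinuousLinearMap.smul_apply, smul_eq_mul,
        ContinuousLinearMap.comp_apply, ContinuousLinearMap.proj_apply]
      ring

theorem hasF_real {σ : Type} [Fintype σ] [DecidableEq σ] (Q : MvPolynomial σ ℝ) (γ : ℝ → (σ → ℝ))
    (v : σ → ℝ) (s : ℝ) (h : HasDerivAt γ v s) :
    HasDerivAt (fun t => eval (γ t) Q) (grad Q (γ s) ⬝ᵥ v) s := by
  induction Q using MvPolynomial.induction_on with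
  | C a =>
    simp only [eval_C]
    have e : grad (C a : MvPolynomial σ ℝ) (γ s) ⬝ᵥ v = 0 := by
      simp [grad, dotProduct]
    rw [e]
    exact hasDerivAt_const s a
  | add p q hp hq =>
    simp only [map_add]
    have e : grad (p + q) (γ s) ⬝ᵥ v = grad p (γ s) ⬝ᵥ v + grad q (γ s) ⬝ᵥ v := by
      simp only [grad, dotProduct, map_add, add_mul, Finset.sum_add_distrib]
    rw [e]
    exact hp.add hq
  | mul_X p n hp =>
    simp only [map_mul, eval_X]
    have h2 : HasDerivAt (fun t => γ t n) (v n) s := (hasDerivAt_pi.1 h) n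
    have e : grad (p * X n) (γ s) ⬝ᵥ v = grad p (γ s) ⬝ᵥ v * γ s n + eval (γ s) p * v n := by
      simp only [grad, dotProduct]
      have e' : ∀ l, eval (γ s) (pderiv l (p * X n)) * v l =
          (eval (γ s) (pderiv l p) * v l) * γ s n +
          (if l = n then eval (γ s) p * v n else 0) := by
        intro l
        rw [pderiv_mul, map_add, map_mul, map_mul, eval_X, pderiv_X]
        by_cases hl : l = n
        · subst hl
          rw [if_pos rfl, Pi.single_eq_same, map_one]
          ring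
        · rw [if_neg hl, Pi.single_eq_of_ne (Ne.symm hl), map_zero]
          ring
      rw [Finset.sum_congr rfl (fun l _ => e' l), Finset.sum_add_distrib, Finset.sum_ite_eq',
        if_pos (Finset.mem_univ n), ← Finset.sum_mul]
    rw [e]
    exact hp.mul h2

theorem div_diff {f g : (Idx → ℝ) → ℝ} {z : Idx → ℝ} (hf : DifferentiableAt ℝ f z)
    (hg : DifferentiableAt ℝ g z) (h : g z ≠ 0) : DifferentiableAt ℝ (fun z => f z / g z) z := by
  simp only [div_eq_mul_inv]
  exact hf.mul (hg.inv h)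

theorem psi_diff {z : Idx → ℝ} (hz : 1 + ww z 4 ≠ 0) : DifferentiableAt ℝ Psi z := by
  rw [differentiableAt_pi]
  intro l
  unfold Psi
  by_cases h : l.1 < 4
  · simp only [h, dif_pos]
    unfold cc ss
    have h1 : DifferentiableAt ℝ (fun z : Idx → ℝ => ((z (Sum.inl ⟨l.1, h⟩) : ℝ) : ℂ)) z :=
      Complex.ofRealCLM.differentiableAt.comp z (differentiableAt_apply _ _)
    have h2 : DifferentiableAt ℝ
        (fun z : Idx → ℝ => ((z (Sum.inr (Sum.inl ⟨l.1, h⟩)) : ℝ) : ℂ)) z :=
      Complex.ofRealCLM.differentiableAt.comp z (differentiableAt_apply _ _)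
    exact h1.add (h2.mul_const _)
  · simp only [h, dif_neg, not_false_iff]
    have h1 : DifferentiableAt ℝ (fun z : Idx → ℝ => ww z ⟨l.1 - 4, by omega⟩ / (1 + ww z 4)) z := by
      apply div_diff
      · exact differentiableAt_apply _ _
      · exact (differentiableAt_const _).add (differentiableAt_apply _ _)
      · exact hz
    exact Complex.ofRealCLM.differentiableAt.comp z h1

theorem hasF_GF (F : MvPolynomial (Fin 8) ℂ) {z : Idx → ℝ} (hz : 1 + ww z 4 ≠ 0) :
    DifferentiableAt ℝ (GF F) z := by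
  obtain ⟨L, h1, h2⟩ := hasF_evalC F Psi (fderiv ℝ Psi z) z (psi_diff hz).hasFDerivAt
  exact h1.differentiableAt

theorem fderiv_GF (F : MvPolynomial (Fin 8) ℂ) {z : Idx → ℝ} (hz : 1 + ww z 4 ≠ 0)
    (v : Idx → ℝ) :
    fderiv ℝ (GF F) z v = ∑ l, cgrad F (Psi z) l * fderiv ℝ Psi z v l := by
  obtain ⟨L, h1, h2⟩ := hasF_evalC F Psi (fderiv ℝ Psi z) z (psi_diff hz).hasFDerivAt
  have h3 : fderiv ℝ (GF F) z = L := h1.fderiv
  rw [h3, h2]
  rfl

/-! ### Curves in `V` -/

/-- square of the length of the block of a coordinate -/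
def mq (v : Idx → ℝ) : Idx → ℝ :=
  Sum.elim (fun j => v (Sum.inl j) ^ 2 + v (Sum.inr (Sum.inl j)) ^ 2)
    (Sum.elim (fun j => v (Sum.inl j) ^ 2 + v (Sum.inr (Sum.inl j)) ^ 2)
      (fun _ => ∑ k : Fin 5, v (Sum.inr (Sum.inr k)) ^ 2))

/-- the normalised curve -/
def gam (z v : Idx → ℝ) (s : ℝ) : Idx → ℝ := fun i => (z i + s * v i) / √(1 + s ^ 2 * mq v i)

theorem mq_nn (v : Idx → ℝ) (i : Idx) : 0 ≤ mq v i := by
  rcases i with j | j | k
  · show 0 ≤ v (Sum.inl j) ^ 2 + v (Sum.inr (Sum.inl j)) ^ 2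
    positivity
  · show 0 ≤ v (Sum.inl j) ^ 2 + v (Sum.inr (Sum.inl j)) ^ 2
    positivity
  · show 0 ≤ ∑ k : Fin 5, v (Sum.inr (Sum.inr k)) ^ 2
    positivity

theorem gam_zero (z v : Idx → ℝ) : gam z v 0 = z := by
  funext i
  simp [gam]

theorem gam_deriv (z v : Idx → ℝ) : HasDerivAt (gam z v) v 0 := by
  rw [hasDerivAt_pi]
  intro i
  have h1 : HasDerivAt (fun s : ℝ => z i + s * v i) (v i) 0 := by
    simpa using ((hasDerivAt_id (0 : ℝ)).mul_const (v i)).const_add (z i)
  have h2 : HasDerivAt (fun s : ℝ => 1 + s ^ 2 * mq v i) 0 0 := by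
    simpa using ((hasDerivAt_pow 2 (0 : ℝ)).mul_const (mq v i)).const_add 1
  have h3 : HasDerivAt (fun s : ℝ => √(1 + s ^ 2 * mq v i)) 0 0 := by
    have := h2.sqrt (by norm_num)
    simpa using this
  have h4 := h1.div h3 (by simp)
  have e : v i = (v i * √(1 + (0 : ℝ) ^ 2 * mq v i) - (z i + 0 * v i) * 0) /
      √(1 + (0 : ℝ) ^ 2 * mq v i) ^ 2 := by simp
  rw [e]
  exact h4

theorem gam_mem {z v : Idx → ℝ} (hz : z ∈ VV) (hC : ∀ j, norC z j ⬝ᵥ v = 0)
    (hS : norS z ⬝ᵥ v = 0) (s : ℝ) : gam z v s ∈ VV := by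
  obtain ⟨h1, h2⟩ := hz
  have hpos : ∀ i, 0 < 1 + s ^ 2 * mq v i := fun i => by
    have := mq_nn v i
    positivity
  refine ⟨fun j => ?_, ?_⟩
  · have e1 : cc z j * v (Sum.inl j) + ss z j * v (Sum.inr (Sum.inl j)) = 0 := by
      have := hC j
      simpa [norC, dotProduct, Fintype.sum_sum_type] using this
    have e2 := h1 j
    have e3 : cc (gam z v s) j = (cc z j + s * v (Sum.inl j)) /
        √(1 + s ^ 2 * (v (Sum.inl j) ^ 2 + v (Sum.inr (Sum.inl j)) ^ 2)) := rfl
    have e4 : ss (gam z v s) j = (ss z j + s * v (Sum.inr (Sum.inl j))) /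
        √(1 + s ^ 2 * (v (Sum.inl j) ^ 2 + v (Sum.inr (Sum.inl j)) ^ 2)) := rfl
    have hp : 0 < 1 + s ^ 2 * (v (Sum.inl j) ^ 2 + v (Sum.inr (Sum.inl j)) ^ 2) := by positivity
    rw [e3, e4, div_pow, div_pow, Real.sq_sqrt hp.le, ← add_div, div_eq_one_iff_eq hp.ne']
    linear_combination e2 + 2 * s * e1
  · have e1 : ∑ k : Fin 5, ww z k * v (Sum.inr (Sum.inr k)) = 0 := by
      have := hS
      simpa [norS, dotProduct, Fintype.sum_sum_type] using this
    have e3 : ∀ k, ww (gam z v s) k = (ww z k + s * v (Sum.inr (Sum.inr k))) /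
        √(1 + s ^ 2 * ∑ k : Fin 5, v (Sum.inr (Sum.inr k)) ^ 2) := fun k => rfl
    have hp : 0 < 1 + s ^ 2 * ∑ k : Fin 5, v (Sum.inr (Sum.inr k)) ^ 2 := by positivity
    simp only [e3, div_pow, Real.sq_sqrt hp.le]
    rw [← Finset.sum_div, div_eq_one_iff_eq hp.ne']
    have e4 : ∑ k : Fin 5, (ww z k + s * v (Sum.inr (Sum.inr k))) ^ 2 =
        ∑ k, ww z k ^ 2 + 2 * s * ∑ k : Fin 5, ww z k * v (Sum.inr (Sum.inr k)) +
          s ^ 2 * ∑ k : Fin 5, v (Sum.inr (Sum.inr k)) ^ 2 := by
      rw [Finset.mul_sum, Finset.mul_sum, ← Finset.sum_add_distrib, ← Finset.sum_add_distrib]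
      apply Finset.sum_congr rfl
      intro k _
      ring
    rw [e4, h2, e1]
    ring

/-! ### The unit -/

theorem uu_diff {z : Idx → ℝ} (hz : 1 + ww z 4 ≠ 0) : DifferentiableAt ℝ uu z := by
  unfold uu
  apply DifferentiableAt.mul
  · have hj : ∀ j, DifferentiableAt ℝ
        (fun z : Idx → ℝ => (cc z j : ℂ) + (ss z j : ℂ) * Complex.I) z := by
      intro j
      have h1 : DifferentiableAt ℝ (fun z : Idx → ℝ => ((cc z j : ℝ) : ℂ)) z :=
        Complex.ofRealCLM.differentiableAt.comp z (differentiableAt_apply _ _)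
      have h2 : DifferentiableAt ℝ (fun z : Idx → ℝ => ((ss z j : ℝ) : ℂ)) z :=
        Complex.ofRealCLM.differentiableAt.comp z (differentiableAt_apply _ _)
      exact h1.add (h2.mul_const _)
    simp only [Fin.prod_univ_four]
    exact (((hj 0).mul (hj 1)).mul (hj 2)).mul (hj 3)
  · apply (differentiableAt_const _).add
    apply DifferentiableAt.fun_sum
    intro k _
    have h1 : DifferentiableAt ℝ (fun z : Idx → ℝ => vv z k / (1 + ww z 4)) z := by
      apply div_diff
      · exact differentiableAt_apply _ _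
      · exact (differentiableAt_const _).add (differentiableAt_apply _ _)
      · exact hz
    have h2 : DifferentiableAt ℝ (fun z : Idx → ℝ => ((vv z k / (1 + ww z 4) : ℝ) : ℂ)) z :=
      Complex.ofRealCLM.differentiableAt.comp z h1
    exact h2.pow 2

theorem uu_ne {z : Idx → ℝ} (hz : z ∈ VV) : uu z ≠ 0 := by
  unfold uu
  apply mul_ne_zero
  · rw [Finset.prod_ne_zero_iff]
    intro j _ h
    have h1 := congrArg Complex.re h
    have h2 := congrArg Complex.im h
    simp at h1 h2
    have h3 := hz.1 j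
    rw [h1, h2] at h3
    norm_num at h3
  · intro h
    have h1 := congrArg Complex.re h
    have h2 : (∑ k : Fin 4, ((vv z k / (1 + ww z 4) : ℝ) : ℂ) ^ 2) =
        ((∑ k : Fin 4, (vv z k / (1 + ww z 4)) ^ 2 : ℝ) : ℂ) := by
      push_cast
      rfl
    rw [h2] at h1
    simp only [Complex.add_re, Complex.one_re, Complex.ofReal_re, Complex.zero_re] at h1
    have h3 : 0 ≤ ∑ k : Fin 4, (vv z k / (1 + ww z 4)) ^ 2 := by positivity
    linarith

/-- the derivative of `GF F` in tangent directions of `V` -/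
theorem key (F : MvPolynomial (Fin 8) ℂ) (Q : MvPolynomial Idx ℝ) (d : ℕ)
    (hF : ∀ z ∈ VV, 1 + ww z 4 ≠ 0 →
      MvPolynomial.eval (Psi z) F = uu z ^ d * (MvPolynomial.eval z Q : ℂ))
    {z v : Idx → ℝ} (hz : z ∈ VV) (hw : 1 + ww z 4 ≠ 0) (hQ : MvPolynomial.eval z Q = 0)
    (hC : ∀ j, norC z j ⬝ᵥ v = 0) (hS : norS z ⬝ᵥ v = 0) :
    fderiv ℝ (GF F) z v = uu z ^ d * ((grad Q z ⬝ᵥ v : ℝ) : ℂ) := by
  have g0 := gam_zero z v
  have gd := gam_deriv z v
  have h1 : HasDerivAt (fun s => GF F (gam z v s)) (fderiv ℝ (GF F) z v) 0 := by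
    have h := (hasF_GF F hw).hasFDerivAt
    have h' : HasFDerivAt (GF F) (fderiv ℝ (GF F) z) (gam z v 0) := by rw [g0]; exact h
    exact h'.comp_hasDerivAt 0 gd
  have h2 : HasDerivAt (fun s => ((MvPolynomial.eval (gam z v s) Q : ℝ) : ℂ))
      ((grad Q z ⬝ᵥ v : ℝ) : ℂ) 0 := by
    have h := hasF_real Q (gam z v) v 0 gd
    rw [g0] at h
    exact h.ofReal_comp
  have h3 : DifferentiableAt ℝ (fun s => uu (gam z v s) ^ d) 0 := by
    have h : DifferentiableAt ℝ uu (gam z v 0) := by rw [g0]; exact uu_diff hw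
    exact (h.comp 0 gd.differentiableAt).pow d
  have h4 := h3.hasDerivAt.mul h2
  have h5 : (fun s => GF F (gam z v s)) =ᶠ[𝓝 0]
      fun s => uu (gam z v s) ^ d * ((MvPolynomial.eval (gam z v s) Q : ℝ) : ℂ) := by
    have hc : ContinuousAt (fun s => 1 + ww (gam z v s) 4) 0 := by
      have : ContinuousAt (gam z v) 0 := gd.continuousAt
      exact continuousAt_const.add ((continuous_apply (Sum.inr (Sum.inr 4))).continuousAt.comp this)
    have hne : (1 + ww (gam z v 0) 4) ≠ 0 := by rw [g0]; exact hw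
    filter_upwards [hc.eventually_ne hne] with s hs
    exact hF _ (gam_mem hz hC hS s) hs
  have h6 := (h4.congr_of_eventuallyEq h5).unique h1
  rw [← h6, g0, hQ]
  simp

/-! ### Linear algebra -/

/-- the normal gradient is a derivative in the direction of a row of the projector -/
theorem nuF_eq {Z : Set (Idx → ℝ)} (T : TData Z) (F : MvPolynomial (Fin 8) ℂ) (i : Idx) (x : Ang) :
    nuF T F i x = fderiv ℝ (GF F) (T.K x) (T.p x i) := by
  unfold nuF
  have h : T.p x i = ∑ i', T.p x i i' • (Pi.single i' (1 : ℝ) : Idx → ℝ) := by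
    funext j
    simp [Finset.sum_apply, Pi.single_apply]
  conv_rhs => rw [h]
  rw [map_sum]
  apply Finset.sum_congr rfl
  intro i' _
  rw [map_smul]
  rfl

/-- among vectors spanning a space of dimension at least two, two are independent -/
theorem two_indep {k : ℕ} {W : Type} [AddCommGroup W] [Module ℝ W] (f : Fin k → W)
    (h : 2 ≤ Module.finrank ℝ (Submodule.span ℝ (Set.range f))) :
    ∃ a b, LinearIndependent ℝ ![f a, f b] := by
  by_contra hc
  push Not at hc
  by_cases h0 : ∃ a, f a ≠ 0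
  · obtain ⟨a, ha⟩ := h0
    have h1 : Submodule.span ℝ (Set.range f) ≤ Submodule.span ℝ {f a} := by
      apply Submodule.span_le.2
      rintro _ ⟨b, rfl⟩
      have h2 := hc a b
      rw [LinearIndependent.pair_iff' ha] at h2
      push Not at h2
      obtain ⟨c, hc⟩ := h2
      exact Submodule.mem_span_singleton.2 ⟨c, hc⟩
    have h2 := Submodule.finrank_mono h1
    have h3 := finrank_span_singleton (K := ℝ) ha
    omega
  · push Not at h0
    have h1 : Submodule.span ℝ (Set.range f) = ⊥ := by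
      rw [Submodule.span_eq_bot]
      rintro _ ⟨b, rfl⟩
      exact h0 b
    rw [h1, finrank_bot] at h
    omega

/-- the projections of the gradients contain two independent vectors -/
theorem two_proj {k : ℕ} (hk : k + 6 = Fintype.card Idx) (g : Fin k → Idx → ℝ)
    (hg : LinearIndependent ℝ g) (p : Matrix Idx Idx ℝ) (hs : pᵀ = p) (hi : p * p = p)
    (ht : p.trace = 2) (D : (Fin 8 → ℝ) →ₗ[ℝ] (Idx → ℝ))
    (hr : Module.finrank ℝ (LinearMap.range D) = 6) (hp : ∀ u, p *ᵥ D u = 0)
    (hgD : ∀ i u, g i ⬝ᵥ D u = 0) : ∃ a b, LinearIndependent ℝ ![p *ᵥ g a, p *ᵥ g b] := by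
  have hcard : Fintype.card Idx = 13 := by simp
  let S : Submodule ℝ (Idx → ℝ) :=
    { carrier := {v | ∀ u, v ⬝ᵥ D u = 0}
      add_mem' := by
        intro a b ha hb u
        rw [add_dotProduct, ha u, hb u, add_zero]
      zero_mem' := by
        intro u
        rw [zero_dotProduct]
      smul_mem' := by
        intro c a ha u
        rw [smul_dotProduct, ha u, smul_zero] }
  have hdis : Disjoint S (LinearMap.range D) := by
    rw [Submodule.disjoint_def]
    rintro v hv ⟨u, rfl⟩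
    have := hv u
    exact dotProduct_self_eq_zero.1 this
  have hS := Submodule.finrank_add_finrank_le_of_disjoint hdis
  rw [hr, Module.finrank_fintype_fun_eq_card, hcard] at hS
  have hA : Submodule.span ℝ (Set.range g) ≤ S := by
    apply Submodule.span_le.2
    rintro _ ⟨i, rfl⟩
    exact hgD i
  have hfA : Module.finrank ℝ (Submodule.span ℝ (Set.range g)) = k := by
    rw [finrank_span_eq_card hg, Fintype.card_fin]
  have hAS : Submodule.span ℝ (Set.range g) = S :=
    Submodule.eq_of_le_of_finrank_le hA (by omega)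
  -- the range of the projector
  have hpS : LinearMap.range (Matrix.toLin' p) ≤ S := by
    rintro _ ⟨v, rfl⟩ u
    rw [Matrix.toLin'_apply, dotProduct_comm, Matrix.dotProduct_mulVec, ← Matrix.mulVec_transpose,
      hs, hp u, zero_dotProduct]
  have hid : (Matrix.toLin' p) ∘ₗ (Matrix.toLin' p) = Matrix.toLin' p := by
    rw [← Matrix.toLin'_mul, hi]
  have hIP : LinearMap.IsProj (LinearMap.range (Matrix.toLin' p)) (Matrix.toLin' p) :=
    ⟨fun x => ⟨x, rfl⟩, by
      rintro _ ⟨v, rfl⟩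
      exact LinearMap.congr_fun hid v⟩
  have hr2 : Module.finrank ℝ (LinearMap.range (Matrix.toLin' p)) = 2 := by
    have h1 := hIP.trace
    rw [Matrix.trace_toLin'_eq, ht] at h1
    exact_mod_cast h1.symm
  have hle : LinearMap.range (Matrix.toLin' p) ≤
      Submodule.span ℝ (Set.range (fun i => p *ᵥ g i)) := by
    rintro _ ⟨v, rfl⟩
    have h1 : Matrix.toLin' p v ∈ Submodule.span ℝ (Set.range g) := by
      rw [hAS]
      exact hpS ⟨v, rfl⟩
    have h2 : Matrix.toLin' p v = Matrix.toLin' p (Matrix.toLin' p v) :=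
      (LinearMap.congr_fun hid v).symm
    rw [h2]
    have h3 : Matrix.toLin' p (Matrix.toLin' p v) ∈
        (Submodule.span ℝ (Set.range g)).map (Matrix.toLin' p) := ⟨_, h1, rfl⟩
    rw [Submodule.map_span, ← Set.range_comp] at h3
    exact h3
  apply two_indep
  rw [← hr2]
  exact Submodule.finrank_mono hle

theorem mem_JJ {Z : Set (Idx → ℝ)} (hZ : Z ⊆ VV) {Q : MvPolynomial Idx ℝ}
    (hQ : ∀ y ∈ Z, MvPolynomial.eval y Q = 0) {F : MvPolynomial (Fin 8) ℂ} {d : ℕ}
    (hF : ∀ z ∈ VV, 1 + ww z 4 ≠ 0 →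
      MvPolynomial.eval (Psi z) F = uu z ^ d * (MvPolynomial.eval z Q : ℂ)) : F ∈ JJ Z := by
  intro z hz hw
  rw [hF z (hZ hz) hw, hQ z hz]
  simp

theorem two_ok (h1 : S_POLY) : S_TWO := by
  intro Z T hZ x
  have hmem : T.K x ∈ Z := by
    rw [← T.ψ0 x]
    exact T.ψmem x 0
  obtain ⟨k, P, hk, hP0, hlin, -⟩ := hZ (T.K x) hmem
  have hzV : T.K x ∈ VV := T.ZV hmem
  have hw : 1 + ww (T.K x) 4 ≠ 0 := by
    have := T.pos x
    linarith
  -- the gradients are orthogonal to the tangent space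
  have hgD : ∀ i u, grad (P i) (T.K x) ⬝ᵥ (fderiv ℝ (T.ψ x) 0) u = 0 := by
    intro i u
    have hd : HasFDerivAt (T.ψ x) (fderiv ℝ (T.ψ x) 0) 0 :=
      ((T.ψsm x).differentiable (by simp)).differentiableAt.hasFDerivAt
    have hl : HasDerivAt (fun s : ℝ => s • u) u 0 := by
      simpa using (hasDerivAt_id (0 : ℝ)).smul_const u
    have hd' : HasFDerivAt (T.ψ x) (fderiv ℝ (T.ψ x) 0) ((0 : ℝ) • u) := by
      rw [zero_smul]; exact hd
    have hc : HasDerivAt (fun s : ℝ => T.ψ x (s • u)) (fderiv ℝ (T.ψ x) 0 u) 0 :=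
      hd'.comp_hasDerivAt 0 hl
    have h2 := hasF_real (P i) (fun s : ℝ => T.ψ x (s • u)) _ 0 hc
    have h3 : (fun t : ℝ => MvPolynomial.eval (T.ψ x (t • u)) (P i)) = fun _ => 0 := by
      funext t
      exact hP0 i _ (T.ψmem x _)
    simp only [h3, zero_smul, T.ψ0] at h2
    exact h2.unique (hasDerivAt_const _ _)
  obtain ⟨a, b, hab⟩ := two_proj hk (fun i => grad (P i) (T.K x)) hlin (T.p x) (T.sym x)
    (T.idem x) (T.tr x) (fderiv ℝ (T.ψ x) 0).toLinearMap (T.rk x) (fun u => T.tan x u)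
    (fun i u => hgD i u)
  obtain ⟨d1, F1, hF1⟩ := h1 (P a)
  obtain ⟨d2, F2, hF2⟩ := h1 (P b)
  have hz0 : ∀ i, MvPolynomial.eval (T.K x) (P i) = 0 := fun i => hP0 i _ hmem
  have hrC : ∀ i j, norC (T.K x) j ⬝ᵥ T.p x i = 0 := by
    intro i j
    have := congrFun (T.nC x j) i
    rw [dotProduct_comm]
    exact this
  have hrS : ∀ i, norS (T.K x) ⬝ᵥ T.p x i = 0 := by
    intro i
    have := congrFun (T.nS x) i
    rw [dotProduct_comm]
    exact this
  have n1 : ∀ i, nuF T F1 i x =
      uu (T.K x) ^ d1 * (((T.p x *ᵥ grad (P a) (T.K x)) i : ℝ) : ℂ) := by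
    intro i
    rw [nuF_eq, key F1 (P a) d1 hF1 hzV hw (hz0 a) (hrC i) (hrS i), dotProduct_comm]
    rfl
  have n2 : ∀ i, nuF T F2 i x =
      uu (T.K x) ^ d2 * (((T.p x *ᵥ grad (P b) (T.K x)) i : ℝ) : ℂ) := by
    intro i
    rw [nuF_eq, key F2 (P b) d2 hF2 hzV hw (hz0 b) (hrC i) (hrS i), dotProduct_comm]
    rfl
  have hu := uu_ne hzV
  have hlinC : LinearIndependent ℂ ![fun i => nuF T F1 i x, fun i => nuF T F2 i x] := by
    rw [LinearIndependent.pair_iff]
    intro s t hst
    rw [LinearIndependent.pair_iff] at hab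
    have e : ∀ i, (s * uu (T.K x) ^ d1) * (((T.p x *ᵥ grad (P a) (T.K x)) i : ℝ) : ℂ) +
        (t * uu (T.K x) ^ d2) * (((T.p x *ᵥ grad (P b) (T.K x)) i : ℝ) : ℂ) = 0 := by
      intro i
      have := congrFun hst i
      simp only [Pi.add_apply, Pi.smul_apply, smul_eq_mul, n1, n2, Pi.zero_apply] at this
      rw [mul_assoc, mul_assoc]
      exact this
    have hre := hab (s * uu (T.K x) ^ d1).re (t * uu (T.K x) ^ d2).re (by
      funext i
      have := congrArg Complex.re (e i)
      simpa using this)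
    have him := hab (s * uu (T.K x) ^ d1).im (t * uu (T.K x) ^ d2).im (by
      funext i
      have := congrArg Complex.im (e i)
      simpa using this)
    have hs : s * uu (T.K x) ^ d1 = 0 := Complex.ext hre.1 him.1
    have ht : t * uu (T.K x) ^ d2 = 0 := Complex.ext hre.2 him.2
    exact ⟨(mul_eq_zero.1 hs).resolve_right (pow_ne_zero _ hu),
      (mul_eq_zero.1 ht).resolve_right (pow_ne_zero _ hu)⟩
  refine ⟨F1, mem_JJ T.ZV (hP0 a) hF1, F2, mem_JJ T.ZV (hP0 b) hF2, hlinC, ?_⟩
  rw [LinearIndependent.pair_iff] at hlinC ⊢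
  intro s t hst
  apply hlinC s t
  funext i
  simp only [Pi.add_apply, Pi.smul_apply, smul_eq_mul, Pi.zero_apply]
  rw [nuF_eq, nuF_eq, fderiv_GF F1 hw, fderiv_GF F2 hw, Finset.mul_sum, Finset.mul_sum,
    ← Finset.sum_add_distrib]
  apply Finset.sum_eq_zero
  intro l _
  have := congrFun hst l
  simp only [Pi.add_apply, Pi.smul_apply, smul_eq_mul, Pi.zero_apply] at this
  rw [← mul_assoc, ← mul_assoc, ← add_mul, this, zero_mul]

end

end Pool.Agent.Helper97.AC
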